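import Pool.Agent.Lib.MP_2f1792_lc.Main

/-!
Non-adaptive prophet inequalities on truncated partition matroids: the best ratio equals the best
ratio for capacities one.
-/

namespace Pool.Agent.Results.MP_2f1792_lc.RatioTPEqR1

open Pool.Agent.Lib.MP_2f1792_lc

/-- The best competitive ratio of non-adaptive algorithms on truncated partition matroids equals
the one on truncated partition matroids with all capacities one; the common value is
`(5 + 3 l) / (2 + 2 l)` with `exp (-l) (5 + 3 l) = 4`, and it is the value of every class of
instances that contains the ones with finite means and all capacities one. -/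
theorem result : rho TP = rho R1 ∧ ∃ l : ℝ, 0 < l ∧ Real.exp (-l) * (5 + 3 * l) = 4 ∧
    ∀ C : Set Inst, R1 ∩ FM ⊆ C → rho C = ENNReal.ofReal ((5 + 3 * l) / (2 + 2 * l)) :=
  main

end Pool.Agent.Results.MP_2f1792_lc.RatioTPEqR1
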